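import Pool.Agent.Helper25.FN.Spec

/-!
# Swarm FN, part WT2: estimates for the homogeneous weight on the unit sphere
-/

set_option autoImplicit false

namespace Pool.Agent.Helper86.FN.WT2

open Pool.Agent.Helper25.FN
open scoped ContDiff
open Pool.Agent.Helper25.FB.Inj (star)

variable {n : ℕ}

lemma coord_le_one {z : V n} (h : nm z = 1) (j : Fin n) : ‖z j‖ ≤ 1 := by
  have h1 : ∑ j, ‖z j‖ ^ 2 = 1 := by
    have h2 : nm z ^ 2 = 1 := by rw [h]; norm_num
    unfold nm at h2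
    rwa [Real.sq_sqrt (Finset.sum_nonneg fun j _ => sq_nonneg _)] at h2
  have h3 : ‖z j‖ ^ 2 ≤ 1 := by
    rw [← h1]
    exact Finset.single_le_sum (f := fun j => ‖z j‖ ^ 2) (fun j _ => sq_nonneg _)
      (Finset.mem_univ j)
  nlinarith [norm_nonneg (z j)]

lemma norm_le_one {z : V n} (h : nm z = 1) : ‖z‖ ≤ 1 :=
  (pi_norm_le_iff_of_nonneg zero_le_one).2 (coord_le_one h)

/-- polynomials are bounded on balls -/
lemma polybdd (Q : Pol n) (R : ℝ) : ∃ M : ℝ, 0 ≤ M ∧ ∀ u : V n, ‖u‖ ≤ R →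
    ‖MvPolynomial.eval u Q‖ ≤ M := by
  obtain ⟨M, hM⟩ := (isCompact_closedBall (0 : V n) R).exists_bound_of_continuousOn
    (MvPolynomial.continuous_eval Q).continuousOn
  refine ⟨max M 0, le_max_right _ _, fun u hu => ?_⟩
  exact (hM u (by simpa using hu)).trans (le_max_left _ _)

/-- polynomials are Lipschitz on balls -/
lemma polylip (Q : Pol n) (R : ℝ) (hR : 0 ≤ R) : ∃ L : ℝ, 0 ≤ L ∧ ∀ u v : V n, ‖u‖ ≤ R →
    ‖v‖ ≤ R → ‖MvPolynomial.eval u Q - MvPolynomial.eval v Q‖ ≤ L * ‖u - v‖ := by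
  induction Q using MvPolynomial.induction_on with
  | C a => exact ⟨0, le_rfl, fun u v _ _ => by simp⟩
  | add p q hp hq =>
    obtain ⟨L1, h1, e1⟩ := hp
    obtain ⟨L2, h2, e2⟩ := hq
    refine ⟨L1 + L2, by positivity, fun u v hu hv => ?_⟩
    rw [map_add, map_add]
    have e : MvPolynomial.eval u p + MvPolynomial.eval u q -
        (MvPolynomial.eval v p + MvPolynomial.eval v q) =
        (MvPolynomial.eval u p - MvPolynomial.eval v p) +
        (MvPolynomial.eval u q - MvPolynomial.eval v q) := by ring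
    rw [e]
    calc _ ≤ _ := norm_add_le _ _
      _ ≤ L1 * ‖u - v‖ + L2 * ‖u - v‖ := add_le_add (e1 u v hu hv) (e2 u v hu hv)
      _ = _ := by ring
  | mul_X p i hp =>
    obtain ⟨L, hL, e1⟩ := hp
    obtain ⟨M, hM, e2⟩ := polybdd p R
    refine ⟨L * R + M, by positivity, fun u v hu hv => ?_⟩
    rw [map_mul, map_mul, MvPolynomial.eval_X, MvPolynomial.eval_X]
    have e : MvPolynomial.eval u p * u i - MvPolynomial.eval v p * v i =
        (MvPolynomial.eval u p - MvPolynomial.eval v p) * u i +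
        MvPolynomial.eval v p * (u i - v i) := by ring
    rw [e]
    have h1 : ‖u i‖ ≤ R := (norm_le_pi_norm u i).trans hu
    have h2 : ‖u i - v i‖ ≤ ‖u - v‖ := norm_le_pi_norm (u - v) i
    calc _ ≤ ‖(MvPolynomial.eval u p - MvPolynomial.eval v p) * u i‖ +
          ‖MvPolynomial.eval v p * (u i - v i)‖ := norm_add_le _ _
      _ ≤ (L * ‖u - v‖) * R + M * ‖u - v‖ := by
        rw [norm_mul, norm_mul]
        exact add_le_add
          (mul_le_mul (e1 u v hu hv) h1 (norm_nonneg _) (by positivity))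
          (mul_le_mul (e2 v hv) h2 (norm_nonneg _) hM)
      _ = _ := by ring

lemma eval_scale (Q : Pol n) (B : ℂ) (u : V n) : MvPolynomial.eval (B • u) Q =
    ∑ α ∈ Q.support, Q.coeff α * (B ^ (∑ i, α i) * MvPolynomial.eval u
      (MvPolynomial.monomial α 1)) := by
  rw [MvPolynomial.eval_eq']
  refine Finset.sum_congr rfl fun α _ => ?_
  congr 1
  rw [MvPolynomial.eval_monomial, one_mul, Finsupp.prod_fintype _ _ (fun i => pow_zero _),
    ← Finset.prod_pow_eq_pow_sum, ← Finset.prod_mul_distrib]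
  refine Finset.prod_congr rfl fun i _ => ?_
  rw [Pi.smul_apply, smul_eq_mul, mul_pow]

lemma deg_le (Q : Pol n) (d : ℕ) (hd : Q.totalDegree ≤ d) {α : Fin n →₀ ℕ} (hα : α ∈ Q.support) :
    ∑ i, α i ≤ d := by
  have h := (MvPolynomial.le_totalDegree hα).trans hd
  rwa [Finsupp.sum_fintype _ _ (fun i => rfl)] at h

/-- scaled Lipschitz estimate -/
lemma scaled (Q : Pol n) (d : ℕ) (hd : Q.totalDegree ≤ d) (R : ℝ) (hR : 0 ≤ R) :
    ∃ L : ℝ, 0 ≤ L ∧ ∀ B : ℝ, 1 ≤ B → ∀ x y : V n, ‖x‖ ≤ R * B → ‖y‖ ≤ R * B →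
      ‖MvPolynomial.eval x Q - MvPolynomial.eval y Q‖ * B ≤ L * B ^ d * ‖x - y‖ := by
  choose l hl hl' using fun α : Fin n →₀ ℕ =>
    polylip (n := n) (MvPolynomial.monomial α (1 : ℂ)) R hR
  refine ⟨∑ α ∈ Q.support, ‖Q.coeff α‖ * l α, Finset.sum_nonneg fun α _ =>
    mul_nonneg (norm_nonneg _) (hl α), fun B hB x y hx hy => ?_⟩
  have hB0 : 0 < B := by linarith
  have hBc : (B : ℂ) ≠ 0 := by exact_mod_cast hB0.ne'
  set u : V n := ((B : ℂ)⁻¹) • x with hu
  set v : V n := ((B : ℂ)⁻¹) • y with hv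
  have hxu : x = (B : ℂ) • u := by rw [hu, smul_smul, mul_inv_cancel₀ hBc, one_smul]
  have hyv : y = (B : ℂ) • v := by rw [hv, smul_smul, mul_inv_cancel₀ hBc, one_smul]
  have hnB : ‖(B : ℂ)⁻¹‖ = B⁻¹ := by
    rw [norm_inv, Complex.norm_real, Real.norm_eq_abs, abs_of_pos hB0]
  have hun : ‖u‖ ≤ R := by
    rw [hu, norm_smul, hnB, inv_mul_le_iff₀ hB0, mul_comm]
    exact hx
  have hvn : ‖v‖ ≤ R := by
    rw [hv, norm_smul, hnB, inv_mul_le_iff₀ hB0, mul_comm]
    exact hy
  have huv : ‖u - v‖ * B = ‖x - y‖ := by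
    rw [hu, hv, ← smul_sub, norm_smul, hnB]
    field_simp
  have hdiff : MvPolynomial.eval x Q - MvPolynomial.eval y Q =
      ∑ α ∈ Q.support, Q.coeff α * ((B : ℂ) ^ (∑ i, α i) *
        (MvPolynomial.eval u (MvPolynomial.monomial α 1) -
          MvPolynomial.eval v (MvPolynomial.monomial α 1))) := by
    conv_lhs => rw [hxu, hyv]
    rw [eval_scale, eval_scale, ← Finset.sum_sub_distrib]
    refine Finset.sum_congr rfl fun α _ => ?_
    ring
  have hb : ‖MvPolynomial.eval x Q - MvPolynomial.eval y Q‖ ≤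
      (∑ α ∈ Q.support, ‖Q.coeff α‖ * l α) * B ^ d * ‖u - v‖ := by
    rw [hdiff, Finset.sum_mul, Finset.sum_mul]
    refine norm_sum_le_of_le _ fun α hα => ?_
    rw [norm_mul, norm_mul, norm_pow, Complex.norm_real, Real.norm_eq_abs, abs_of_pos hB0]
    have h1 : B ^ (∑ i, α i) ≤ B ^ d := pow_le_pow_right₀ hB (deg_le Q d hd hα)
    have h2 := hl' α u v hun hvn
    calc ‖Q.coeff α‖ * (B ^ (∑ i, α i) * ‖MvPolynomial.eval u (MvPolynomial.monomial α 1) -
          MvPolynomial.eval v (MvPolynomial.monomial α 1)‖)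
        ≤ ‖Q.coeff α‖ * (B ^ d * (l α * ‖u - v‖)) := by
          refine mul_le_mul_of_nonneg_left ?_ (norm_nonneg _)
          exact mul_le_mul h1 h2 (norm_nonneg _) (by positivity)
      _ = _ := by ring
  calc ‖MvPolynomial.eval x Q - MvPolynomial.eval y Q‖ * B
      ≤ ((∑ α ∈ Q.support, ‖Q.coeff α‖ * l α) * B ^ d * ‖u - v‖) * B :=
        mul_le_mul_of_nonneg_right hb hB0.le
    _ = _ := by rw [mul_assoc _ ‖u - v‖ B, huv]

/-- lower order terms -/
lemma lower (Q : Pol n) (d : ℕ) (hd : Q.totalDegree ≤ d) :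
    ∃ L : ℝ, 0 ≤ L ∧ ∀ B : ℝ, 1 ≤ B → ∀ z : V n, ‖z‖ ≤ 1 →
      ‖MvPolynomial.eval ((B : ℂ) • z) Q -
        (B : ℂ) ^ d * MvPolynomial.eval z (MvPolynomial.homogeneousComponent d Q)‖ * B ≤
          L * B ^ d := by
  refine ⟨∑ α ∈ Q.support, ‖Q.coeff α‖, Finset.sum_nonneg fun α _ => norm_nonneg _,
    fun B hB z hz => ?_⟩
  have hB0 : 0 < B := by linarith
  have hh : MvPolynomial.eval z (MvPolynomial.homogeneousComponent d Q) =
      ∑ α ∈ Q.support, if (∑ i, α i) = d then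
        Q.coeff α * MvPolynomial.eval z (MvPolynomial.monomial α 1) else 0 := by
    rw [MvPolynomial.homogeneousComponent_apply, map_sum, Finset.sum_filter]
    refine Finset.sum_congr rfl fun α _ => ?_
    have hdeg : α.degree = ∑ i, α i := by
      rw [Finsupp.degree_eq_sum]
    rw [hdeg]
    split_ifs with h
    · rw [MvPolynomial.eval_monomial, MvPolynomial.eval_monomial, one_mul]
    · rfl
  rw [hh, eval_scale, Finset.mul_sum, ← Finset.sum_sub_distrib]
  have hb : ∀ α ∈ Q.support, ‖Q.coeff α * ((B : ℂ) ^ (∑ i, α i) *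
      MvPolynomial.eval z (MvPolynomial.monomial α 1)) - (B : ℂ) ^ d *
        (if (∑ i, α i) = d then Q.coeff α * MvPolynomial.eval z (MvPolynomial.monomial α 1)
          else 0)‖ * B ≤ ‖Q.coeff α‖ * B ^ d := by
    intro α hα
    split_ifs with h
    · rw [h]
      have : Q.coeff α * ((B : ℂ) ^ d * MvPolynomial.eval z (MvPolynomial.monomial α 1)) -
          (B : ℂ) ^ d * (Q.coeff α * MvPolynomial.eval z (MvPolynomial.monomial α 1)) = 0 := by
        ring
      rw [this, norm_zero, zero_mul]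
      positivity
    · have hlt : ∑ i, α i + 1 ≤ d := lt_of_le_of_ne (deg_le Q d hd hα) h
      rw [mul_zero, sub_zero, norm_mul, norm_mul, norm_pow, Complex.norm_real, Real.norm_eq_abs,
        abs_of_pos hB0]
      have hmon : ‖MvPolynomial.eval z (MvPolynomial.monomial α (1 : ℂ))‖ ≤ 1 := by
        rw [MvPolynomial.eval_monomial, one_mul, Finsupp.prod_fintype _ _ (fun i => pow_zero _),
          norm_prod]
        refine Finset.prod_le_one (fun i _ => norm_nonneg _) fun i _ => ?_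
        rw [norm_pow]
        exact pow_le_one₀ (norm_nonneg _) ((norm_le_pi_norm z i).trans hz)
      calc ‖Q.coeff α‖ * (B ^ (∑ i, α i) * ‖MvPolynomial.eval z (MvPolynomial.monomial α 1)‖) * B
          ≤ ‖Q.coeff α‖ * (B ^ (∑ i, α i) * 1) * B := by gcongr
        _ = ‖Q.coeff α‖ * B ^ (∑ i, α i + 1) := by rw [pow_succ]; ring
        _ ≤ ‖Q.coeff α‖ * B ^ d := by
          refine mul_le_mul_of_nonneg_left ?_ (norm_nonneg _)
          exact pow_le_pow_right₀ hB hlt
  calc ‖∑ α ∈ Q.support, _‖ * B ≤ (∑ α ∈ Q.support, ‖Q.coeff α * ((B : ℂ) ^ (∑ i, α i) *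
      MvPolynomial.eval z (MvPolynomial.monomial α 1)) - (B : ℂ) ^ d *
        (if (∑ i, α i) = d then Q.coeff α * MvPolynomial.eval z (MvPolynomial.monomial α 1)
          else 0)‖) * B := mul_le_mul_of_nonneg_right (norm_sum_le _ _) hB0.le
    _ ≤ _ := by
      rw [Finset.sum_mul, Finset.sum_mul]
      exact Finset.sum_le_sum hb

/-- evaluation at the conjugate point -/
lemma eval_conj (P : Pol n) (w : V n) : MvPolynomial.eval w P =
    starRingEnd ℂ (MvPolynomial.eval (fun j => starRingEnd ℂ (w j)) (star P)) := by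
  unfold Pool.Agent.Helper25.FB.Inj.star
  rw [MvPolynomial.eval_map, MvPolynomial.eval_eq', MvPolynomial.eval₂_eq', map_sum]
  refine Finset.sum_congr rfl fun α _ => ?_
  rw [map_mul, map_prod, Complex.conj_conj]
  congr 1
  refine Finset.prod_congr rfl fun i _ => ?_
  rw [map_pow, Complex.conj_conj]

lemma totalDegree_star (P : Pol n) : (star P).totalDegree ≤ P.totalDegree := by
  unfold Pool.Agent.Helper25.FB.Inj.star
  exact Finset.sup_mono (MvPolynomial.support_map_subset _ _)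

theorem main (hROOT : S_ROOT) (hWT1 : S_WT1) : S_WT2 := by
  intro n P hd hG A η hA hη
  obtain ⟨ε, K, B₀, hε, hK, hB₀, hroot⟩ := hROOT n P hd hG
  obtain ⟨K', hK', hwt⟩ := hWT1 n P K hK
  set d : ℕ := P.totalDegree with hdd
  -- bounds for `cg` and `pv`
  choose Mj hMj0 hMj using fun j : Fin n => polybdd (n := n) (MvPolynomial.pderiv j (lead P)) 1
  set M : ℝ := ∑ j, Mj j with hM
  have hM0 : 0 ≤ M := Finset.sum_nonneg fun j _ => hMj0 j
  have hcg : ∀ z : V n, ‖z‖ ≤ 1 → ∀ j, ‖cg P z j‖ ≤ M := by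
    intro z hz j
    unfold cg
    rw [RCLike.norm_conj]
    exact (hMj j z hz).trans (Finset.single_le_sum (f := Mj) (fun j _ => hMj0 j)
      (Finset.mem_univ j))
  obtain ⟨Mp, hMp0, hMp⟩ := polybdd (n := n) (lead P) 1
  set C3 : ℝ := K * M + K' * Mp with hC3
  have hC30 : 0 ≤ C3 := by positivity
  obtain ⟨L, hL, hlip⟩ := scaled (star P) d (totalDegree_star P) (1 + C3) (by positivity)
  obtain ⟨L', hL', hlow⟩ := lower (star P) d (totalDegree_star P)
  -- the constant
  set C6 : ℝ := L * K' + (L * C3 + L') / ε with hC6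
  have hC60 : 0 ≤ C6 := by positivity
  set B : ℝ := B₀ + 2 * C6 + A + K' + K' / η with hBdef
  have hKη : 0 < K' / η := by positivity
  have hBB₀ : B₀ ≤ B := by linarith
  have hB1 : 1 ≤ B := by linarith
  have hB0 : 0 < B := by linarith
  obtain ⟨s, hs1, hs2, hs3, hs4⟩ := hroot B hBB₀
  obtain ⟨hw1, hw2, hw3⟩ := hwt B s hs1 hs2 hs3
  -- main estimate
  have hmain : ∀ z : V n, nm z = 1 → ∃ r : ℂ, ‖r‖ * B ≤ C6 * B ^ d * ‖pv P z‖ ∧
      MvPolynomial.eval (fun j => starRingEnd ℂ (gr (Phom P B s) z j)) (star P) =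
        (B : ℂ) ^ d * pv P z + r := by
    intro z hz
    have hz1 := norm_le_one hz
    obtain ⟨h1, h2, h3⟩ := hw3 z hz
    set κ : V n := fun j => starRingEnd ℂ (gr (Phom P B s) z j) with hκ
    set x : V n := (B : ℂ) • z + s z • cg P z with hx
    have hpv : ‖pv P z‖ ≤ Mp := hMp z hz1
    have hsz := hs2 z
    have hκx : ‖κ - x‖ ≤ K' * ‖pv P z‖ := by
      refine (pi_norm_le_iff_of_nonneg (by positivity)).2 fun j => ?_
      have := h3 j
      simpa [hκ, hx, Pi.add_apply, Pi.smul_apply, smul_eq_mul] using this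
    have hscg : ‖s z • cg P z‖ ≤ K * M := by
      rw [norm_smul]
      refine mul_le_mul hsz ?_ (norm_nonneg _) hK.le
      exact (pi_norm_le_iff_of_nonneg hM0).2 (hcg z hz1)
    have hBz : ‖(B : ℂ) • z‖ ≤ B := by
      rw [norm_smul, Complex.norm_real, Real.norm_eq_abs, abs_of_pos hB0]
      nlinarith
    have hxB : ‖x - (B : ℂ) • z‖ ≤ K * M := by
      have : x - (B : ℂ) • z = s z • cg P z := by rw [hx]; abel
      rw [this]; exact hscg
    have hκB : ‖κ - (B : ℂ) • z‖ ≤ C3 := by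
      have : κ - (B : ℂ) • z = (κ - x) + (x - (B : ℂ) • z) := by abel
      rw [this]
      have h5 : K' * ‖pv P z‖ ≤ K' * Mp := mul_le_mul_of_nonneg_left hpv hK'.le
      calc _ ≤ _ := norm_add_le _ _
        _ ≤ K' * Mp + K * M := add_le_add (hκx.trans h5) hxB
        _ = C3 := by rw [hC3]; ring
    have hRB : B + C3 ≤ (1 + C3) * B := by nlinarith
    have hKM : K * M ≤ C3 := by
      rw [hC3]
      have : 0 ≤ K' * Mp := by positivity
      linarith
    have hBzn : ‖(B : ℂ) • z‖ ≤ (1 + C3) * B := by nlinarith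
    have hκn : ‖κ‖ ≤ (1 + C3) * B := by
      have : κ = (κ - (B : ℂ) • z) + (B : ℂ) • z := by abel
      rw [this]
      exact (norm_add_le _ _).trans (by linarith)
    have hxn : ‖x‖ ≤ (1 + C3) * B := by
      have : x = (x - (B : ℂ) • z) + (B : ℂ) • z := by abel
      rw [this]
      exact (norm_add_le _ _).trans (by linarith)
    refine ⟨MvPolynomial.eval κ (star P) - (B : ℂ) ^ d * pv P z, ?_, by ring⟩
    have hBd : 0 ≤ B ^ d := by positivity
    have hpn := norm_nonneg (pv P z)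
    by_cases hcase : ‖pv P z‖ ≤ ε
    · have h6 := hs4 z hz hcase
      rw [← hx] at h6
      rw [← h6]
      have h7 := hlip B hB1 κ x hκn hxn
      have h8 : L * B ^ d * ‖κ - x‖ ≤ L * B ^ d * (K' * ‖pv P z‖) :=
        mul_le_mul_of_nonneg_left hκx (by positivity)
      have h9 : 0 ≤ (L * C3 + L') / ε := by positivity
      calc _ ≤ _ := h7
        _ ≤ _ := h8
        _ = L * K' * (B ^ d * ‖pv P z‖) := by ring
        _ ≤ C6 * (B ^ d * ‖pv P z‖) := by
          refine mul_le_mul_of_nonneg_right ?_ (by positivity)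
          rw [hC6]; linarith
        _ = _ := by ring
    · push Not at hcase
      have h7 := hlip B hB1 κ ((B : ℂ) • z) hκn hBzn
      have h8 : L * B ^ d * ‖κ - (B : ℂ) • z‖ ≤ L * B ^ d * C3 :=
        mul_le_mul_of_nonneg_left hκB (by positivity)
      have h9 := hlow B hB1 z hz1
      have h10 : ‖MvPolynomial.eval κ (star P) - (B : ℂ) ^ d * pv P z‖ ≤
          ‖MvPolynomial.eval κ (star P) - MvPolynomial.eval ((B : ℂ) • z) (star P)‖ +
          ‖MvPolynomial.eval ((B : ℂ) • z) (star P) - (B : ℂ) ^ d * pv P z‖ := by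
        refine le_trans (le_of_eq ?_) (norm_add_le _ _)
        congr 1
        ring
      have h11 : ‖MvPolynomial.eval κ (star P) - (B : ℂ) ^ d * pv P z‖ * B ≤
          (L * C3 + L') * B ^ d := by
        have := mul_le_mul_of_nonneg_right h10 hB0.le
        have h12 : ‖MvPolynomial.eval ((B : ℂ) • z) (star P) - (B : ℂ) ^ d * pv P z‖ * B ≤
            L' * B ^ d := h9
        nlinarith
      have h13 : (L * C3 + L') * B ^ d ≤ (L * C3 + L') / ε * (B ^ d * ‖pv P z‖) := by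
        have h14 : 1 ≤ ‖pv P z‖ / ε := by rw [le_div_iff₀ hε]; linarith
        calc (L * C3 + L') * B ^ d = (L * C3 + L') * B ^ d * 1 := by ring
          _ ≤ (L * C3 + L') * B ^ d * (‖pv P z‖ / ε) :=
            mul_le_mul_of_nonneg_left h14 (by positivity)
          _ = _ := by ring
      calc _ ≤ _ := h11
        _ ≤ _ := h13
        _ ≤ C6 * (B ^ d * ‖pv P z‖) := by
          refine mul_le_mul_of_nonneg_right ?_ (by positivity)
          rw [hC6]
          have : 0 ≤ L * K' := by positivity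
          linarith
        _ = _ := by ring
  refine ⟨Phom P B s, hw1, hw2, ?_, ⟨B ^ d / 2, by positivity, ?_⟩, ⟨B ^ d + C6 * B ^ d, ?_⟩, ?_⟩
  · intro z hz
    have h1 := (abs_le.1 (hw3 z hz).1).1
    linarith
  · intro z hz
    obtain ⟨r, hr, he⟩ := hmain z hz
    rw [eval_conj P, he]
    have hp2 : pv P z * starRingEnd ℂ ((B : ℂ) ^ d * pv P z + r) =
        ((B ^ d * ‖pv P z‖ ^ 2 : ℝ) : ℂ) + pv P z * starRingEnd ℂ r := by
      rw [map_add, map_mul, map_pow, Complex.conj_ofReal, mul_add]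
      congr 1
      push_cast
      rw [← Complex.mul_conj']
      ring
    rw [hp2, Complex.add_re, Complex.ofReal_re]
    have h2 : |(pv P z * starRingEnd ℂ r).re| ≤ ‖pv P z‖ * ‖r‖ := by
      refine (Complex.abs_re_le_norm _).trans (le_of_eq ?_)
      rw [norm_mul, RCLike.norm_conj]
    have h3 := (abs_le.1 h2).1
    have h4 : ‖pv P z‖ * ‖r‖ * B ≤ B ^ d / 2 * ‖pv P z‖ ^ 2 * B := by
      have h5 : ‖pv P z‖ * (‖r‖ * B) ≤ ‖pv P z‖ * (C6 * B ^ d * ‖pv P z‖) :=
        mul_le_mul_of_nonneg_left hr (norm_nonneg _)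
      have h6 : C6 ≤ B / 2 := by linarith
      have h7 : C6 * (B ^ d * ‖pv P z‖ ^ 2) ≤ B / 2 * (B ^ d * ‖pv P z‖ ^ 2) :=
        mul_le_mul_of_nonneg_right h6 (by positivity)
      nlinarith
    have h5 : ‖pv P z‖ * ‖r‖ ≤ B ^ d / 2 * ‖pv P z‖ ^ 2 := le_of_mul_le_mul_right h4 hB0
    linarith
  · intro z hz
    obtain ⟨r, hr, he⟩ := hmain z hz
    rw [eval_conj P, he, RCLike.norm_conj]
    have h1 : ‖r‖ ≤ C6 * B ^ d * ‖pv P z‖ := by
      refine le_trans ?_ hr
      nlinarith [norm_nonneg r]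
    calc _ ≤ ‖(B : ℂ) ^ d * pv P z‖ + ‖r‖ := norm_add_le _ _
      _ = B ^ d * ‖pv P z‖ + ‖r‖ := by
        rw [norm_mul, norm_pow, Complex.norm_real, Real.norm_eq_abs, abs_of_pos hB0]
      _ ≤ _ := by nlinarith
  · intro z hz
    obtain ⟨h1, h2, _⟩ := hw3 z hz
    have h3 := (abs_le.1 h1).1
    refine h2.trans ?_
    have h4 : K' / η ≤ Phom P B s z := by linarith
    calc K' = η * (K' / η) := by field_simp
      _ ≤ _ := mul_le_mul_of_nonneg_left h4 hη.le

end Pool.Agent.Helper86.FN.WT2
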